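import Pool.Agent.R536.RA.Mem

/-!
# The complexity of role assignment on interval graphs

ROLE ASSIGNMENT restricted to pairs `(G, R)` in which `G` is an interval graph is `NP`-complete. It
remains `NP`-hard if both graphs are interval graphs.
-/

set_option autoImplicit false

namespace Pool.Agent.Results.MP_a950c6_lc.RoleAssignmentInterval

open Pool.Agent.NPC Pool.Agent.NPC.R536CS Pool.Agent.NPC.R536UD Pool.Agent.NPC.R536RA

/-- ROLE ASSIGNMENT restricted to pairs of interval graphs. -/
def RoleInterval₂ (x : Gr × Gr) : Prop :=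
  IsIntervalGraph (graph x.1) ∧ IsIntervalGraph (graph x.2) ∧
    ∃ r, IsRole (graph x.1) (graph x.2) r

theorem hard₂ : NPHardP RoleInterval₂ := by
  refine (hardI_SAT3.trans (f := fun φ => (GG φ.length (vi φ) (sg φ), RR φ.length))
    (Poly.pair GG_poly RR_poly) fun φ => red.trans ?_).toNPHardP
  have hR : IsIntervalGraph (graph (RR φ.length)) :=
    interval_tr fun _ _ _ _ _ _ h _ => h
  exact ⟨fun h => ⟨h.1, hR, h.2⟩, fun h => ⟨h.1, h.2.2⟩⟩

/-- ROLE ASSIGNMENT restricted to pairs `(G, R)` with an interval graph `G` is `NP`-complete, and it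
is `NP`-hard also if moreover `R` is an interval graph. -/
theorem result : (InNPP RoleInterval ∧ NPHardP RoleInterval) ∧ NPHardP RoleInterval₂ :=
  ⟨⟨np_role, hard_role⟩, hard₂⟩

end Pool.Agent.Results.MP_a950c6_lc.RoleAssignmentInterval
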